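import Pool.Agent.MP_855f4c_ag.CC.All

namespace Pool.Agent.Results.MP_855f4c_ag.EtaleCurves

open CategoryTheory Limits AlgebraicGeometry MvPolynomial Pool.Agent.MP_855f4c_ag.Et

attribute [local instance] MvPolynomial.gradedAlgebra

theorem result
    (K : Type) [Field K] (Y : Scheme.{0}) (f : Y ⟶ Spec (.of K)) (d N : ℕ)
    [SmoothOfRelativeDimension d f] [GeometricallyIrreducible f]
    (ι : Y ⟶ Proj (homogeneousSubmodule (Fin (N + 1)) K)) [IsClosedImmersion ι]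
    (hι : ι ≫ Proj.toSpecZero _ ≫ Spec.map (CommRingCat.ofHom (algebraMap K _)) = f)
    (s g c : ℕ) (k n : Fin s → ℕ) (r t : Fin g → ℕ)
    (J : ∀ b, Fin (t b) → MvPolynomial (Fin (r b + 2)) K) (δ : ∀ b, Fin (t b) → ℕ)
    (hJ : ∀ b j, (J b j).IsHomogeneous (δ b j))
    (F : Fin c → MvPolynomial ((Σ a : Σ b, Fin (k b), Fin (n a.1 + 1)) ⊕ Σ b, Fin (r b + 2)) K)
    (e : Fin c → (Σ b, Fin (k b)) ⊕ Fin g → ℕ)
    (hF : ∀ j, (F j).IsWeightedHomogeneous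
      (fun x => Pi.single (x.map Sigma.fst Sigma.fst) 1) (e j))
    (q : Fin (N + 1) →
      MvPolynomial ((Σ a : Σ b, Fin (k b), Fin (n a.1 + 1)) ⊕ Σ b, Fin (r b + 2)) K)
    (m : (Σ b, Fin (k b)) ⊕ Fin g → ℕ)
    (hq : ∀ j, (q j).IsWeightedHomogeneous (fun x => Pi.single (x.map Sigma.fst Sigma.fst) 1) m)
    (hnum : coeff (Finsupp.equivFunOnFinite.symm
        (Sum.elim (fun a : Σ b, Fin (k b) => n a.1) fun _ : Fin g => 1))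
      ((∏ b, ∏ i : Fin (k b), ∏ j ∈ Finset.Ioi i, (X (.inl ⟨b, j⟩) - X (.inl ⟨b, i⟩))) ^ 2 *
        (∑ a, m a • X a) ^ d * ∏ j, ∑ a, e j a • X a : MvPolynomial _ ℤ) ≠ 0)
    (O Ω : Type) [CommRing O] [IsDomain O] [IsDiscreteValuationRing O]
    [Finite (IsLocalRing.ResidueField O)] [Field Ω] [CharZero Ω] [IsAlgClosed Ω] [Algebra O Ω]
    [FaithfulSMul O Ω] [Algebra.IsAlgebraic O Ω] [Algebra K Ω]
    (hfin : ∀ b (w : Fin (r b + 2) → Ω), (∀ j, aeval w (J b j) = 0) → w 0 = 0 → w 1 = 0 → w = 0)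
    (hinf : ∀ b, Set.Infinite
      {x | ∃ w : Fin (r b + 2) → Ω, (∀ j, aeval w (J b j) = 0) ∧ w 0 = 1 ∧ w 1 = x})
    (hY : ∀ (v : (Σ a : Σ b, Fin (k b), Fin (n a.1 + 1)) → Ω) (w : ∀ b, Fin (r b + 2) → Ω),
      (∀ b, LinearIndependent Ω fun (i : Fin (k b)) (x : Fin (n b + 1)) => v ⟨⟨b, i⟩, x⟩) →
      (∀ b, w b ≠ 0) → (∀ b j, aeval (w b) (J b j) = 0) →
      (∀ j, aeval (Sum.elim v fun x => w x.1 x.2) (F j) = 0) →
      (∃ j, aeval (Sum.elim v fun x => w x.1 x.2) (q j) ≠ 0) ∧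
        ∀ (G : MvPolynomial (Fin (N + 1)) K) (r : ℕ), G.IsHomogeneous r →
          (∀ y : Y, G ∈ (ι y).asHomogeneousIdeal) →
          aeval (fun j => aeval (Sum.elim v fun x => w x.1 x.2) (q j)) G = 0)
    (l : ℕ) [Fact l.Prime] (hl : IsUnit (l : O)) (i : ℕ) (φ u : Ω ≃ₐ[K] Ω) (Q : ℕ) (hQ : 1 < Q)
    (hφ : Frob O Q φ) (hu : Frob O 1 u)
    (hr : ∃ (n : ℕ) (r : Ω) (o : O), r ^ l ^ n = algebraMap O Ω o ∧ u r ≠ r) :
    Mw Q i (gal f l i φ) (gal f l i u) :=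
  Pool.Agent.MP_855f4c_ag.Cu.All.hFINALC K Y f d N ι hι s g c k n r t J δ hJ F e hF q m hq hnum O Ω
    hfin hinf hY l hl i φ u Q hQ hφ hu hr

end Pool.Agent.Results.MP_855f4c_ag.EtaleCurves
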