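import Pool.Agent.MP_855f4c_ag.EC.All

namespace Pool.Agent.Results.MP_855f4c_ag.EtaleLargePrime

open CategoryTheory Limits AlgebraicGeometry Pool.Agent.MP_855f4c_ag.Et

/-- In a proper family of finite type over `ℤ`, the `l`-adic etale cohomology of every smooth fibre
over the fraction field of a discrete valuation ring `O` of mixed characteristic with finite residue
field is mw pure, as soon as the residue characteristic does not divide `M`. -/
theorem result (R : Type) [CommRing R] [Algebra.FiniteType ℤ R] (X : Scheme.{0})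
    (f : X ⟶ Spec (.of R)) [IsProper f] :
    ∃ M : ℕ, M ≠ 0 ∧ ∀ (O Ω : Type) [CommRing O] [IsDomain O] [IsDiscreteValuationRing O]
      [Finite (IsLocalRing.ResidueField O)] [Field Ω] [CharZero Ω] [IsAlgClosed Ω] [Algebra O Ω]
      [FaithfulSMul O Ω] [Algebra.IsAlgebraic O Ω] [Algebra R Ω] (l : ℕ) [Fact l.Prime],
      IsUnit (M : O) → IsUnit (l : O) →
      Smooth (pullback.fst (Spec.map (CommRingCat.ofHom (algebraMap R Ω))) f) →
      ∀ (i : ℕ) (φ u : Ω ≃ₐ[R] Ω) (Q : ℕ), 1 < Q → Frob O Q φ → Frob O 1 u →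
        (∃ (n : ℕ) (r : Ω) (o : O), r ^ l ^ n = algebraMap O Ω o ∧ u r ≠ r) →
        Mw Q i (gal f l i φ) (gal f l i u) :=
  (MP_855f4c_ag.E.All.main R X f).imp fun _ h => ⟨h.1, fun O Ω _ _ _ _ _ _ _ _ _ _ _ l _ h1 h2 h3
    i φ u Q h4 h5 h6 h7 => mw_of f l i Q φ u (h.2 O Ω l h1 h2 h3 i φ u Q h4 h5 h6 h7)⟩

end Pool.Agent.Results.MP_855f4c_ag.EtaleLargePrime
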