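import Pool.Agent.MP_855f4c_ag.VC.All

namespace Pool.Agent.Results.MP_855f4c_ag.EtaleLocal

open CategoryTheory Limits AlgebraicGeometry MvPolynomial Pool.Agent.MP_855f4c_ag.Et TensorProduct
  IsLocalRing

attribute [local instance] MvPolynomial.gradedAlgebra

/-- For some `m > 0` there is a finite `φ`-stable filtration with `N = u ^ m - 1` of degree `-2`,
`N ^ r : gr_r → gr_(-r)` onto, and `gr_a` pure of weight `a + i` for `φ` relative to `q`. -/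
def Mo (q : ℕ) (i : ℤ) {W : ModuleCat.{1} ℚ} (φ u : Module.End ℚ W) : Prop :=
  ∃ m > 0, ∃ M : ℤ → Submodule ℚ W, Monotone M ∧ (∃ a, M a = ⊥) ∧ (∃ a, M a = ⊤) ∧
    (∀ a, ∀ v ∈ M a, (u ^ m - 1) v ∈ M (a - 2)) ∧
    (∀ r : ℕ, ∀ w ∈ M (-r), ∃ v ∈ M r, w - ((u ^ m - 1) ^ r) v ∈ M (-r - 1)) ∧
    ∀ a, (∀ v ∈ M a, φ v ∈ M a) ∧ ∃ P : Polynomial ℚ, P ≠ 0 ∧
      (∀ z : ℂ, Polynomial.aeval z P = 0 → ‖z‖ ^ 2 = (q : ℝ) ^ (a + i)) ∧
        ∀ v ∈ M a, Polynomial.aeval φ P v ∈ M (a - 1)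

theorem result
    (O K Ω : Type) [CommRing O] [IsDomain O] [IsDiscreteValuationRing O] [HenselianLocalRing O]
    [Finite (ResidueField O)] [Field K] [Algebra O K] [IsFractionRing O K]
    [Field Ω] [CharZero Ω] [IsAlgClosed Ω] [Algebra O Ω] [FaithfulSMul O Ω]
    [Algebra.IsAlgebraic O Ω]
    (A : Type) [CommRing A] [Algebra O A] [Algebra.FiniteType O A] [Module.Flat O A]
    (Y : Scheme.{0}) (f : Y ⟶ Spec (.of K)) (d : ℕ) (hd : 0 < d) [SmoothOfRelativeDimension d f]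
    [GeometricallyIrreducible f]
    (N : ℕ) (ι : Y ⟶ Proj (homogeneousSubmodule (Fin (N + 1)) K)) [IsClosedImmersion ι]
    (hι : ι ≫ Proj.toSpecZero _ ≫ Spec.map (CommRingCat.ofHom (algebraMap K _)) = f)
    (a : Spec (.of (K ⊗[O] A)) ⟶ Y) [LocallyRingedSpace.IsOpenImmersion a.toLRSHom]
    (ha : a ≫ f = Spec.map (CommRingCat.ofHom (algebraMap K _)))
    (hU : ∀ y : Y, y ∈ Set.range a ↔ MvPolynomial.X 0 ∉ (ι y).asHomogeneousIdeal)
    (I : Ideal A) (hI : (maximalIdeal O).map (algebraMap O A) ≤ I)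
    (B : Type) [CommRing B] [Algebra A B] [Algebra O B] [IsScalarTower O A B]
    [HenselianRing B (I.map (algebraMap A B))]
    (hB : ∀ (P : Type) [CommRing P] [Algebra A P] [Algebra.FinitePresentation A P] (g : P →ₐ[A] B),
      ∃ (E : Type) (_ : CommRing E) (_ : Algebra A E) (_ : Algebra.Etale A E)
        (g₁ : P →ₐ[A] E) (g₂ : E →ₐ[A] B), g₂.comp g₁ = g)
    (hq : Function.Bijective
      (Ideal.quotientMap (I.map (algebraMap A B)) (algebraMap A B) Ideal.le_comap_map))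
    (l : ℕ) [Fact l.Prime] (hl : IsUnit (l : O)) (φ u : Ω ≃ₐ[O] Ω) (Q : ℕ) (hQ : 1 < Q)
    (hφ : Frob O Q φ) (hu : Frob O 1 u)
    (hr : ∃ (n : ℕ) (r : Ω) (o : O), r ^ l ^ n = algebraMap O Ω o ∧ u r ≠ r) :
    Mo Q d (gal (Spec.map (CommRingCat.ofHom (algebraMap O B))) l d φ)
      (gal (Spec.map (CommRingCat.ofHom (algebraMap O B))) l d u) := by
  obtain ⟨W, φ', u', q, h0, h1, h2, h3⟩ := Pool.Agent.MP_855f4c_ag.LG.resJ O K Ω A Y f d hd N ι hι a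
    ha hU I hI B hB hq l hl φ u Q hQ hφ hu hr
  exact Mw.quot q h0 (fun v => LinearMap.congr_fun h1 v) (fun v => LinearMap.congr_fun h2 v) h3

end Pool.Agent.Results.MP_855f4c_ag.EtaleLocal
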