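import Pool.Agent.MP_855f4c_ag.AC.All
import Pool.Agent.MP_855f4c_ag.AC.Ar

namespace Pool.Agent.Results.MP_855f4c_ag.EtaleReflection

open CategoryTheory Limits AlgebraicGeometry MvPolynomial Pool.Agent.MP_855f4c_ag.Et

attribute [local instance] MvPolynomial.gradedAlgebra

/-- `V` is the direct sum of `U` and `W = ∑_g im (a g - 1)`, compatibly with the operators `φ`, `u`,
and `W` is mw pure. -/
def Splits (Q : ℕ) (i : ℤ) {U V : ModuleCat.{1} ℚ} {G : Type} (a : G → Module.End ℚ V)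
    (φ₀ u₀ : Module.End ℚ U) (φ u : Module.End ℚ V) : Prop :=
  ∃ W : Submodule ℚ V, W = ⨆ g, LinearMap.range (a g - 1) ∧
    ∃ (φ' u' : Module.End ℚ W) (e : (U × W) ≃ₗ[ℚ] V), (∀ w : W, e (0, w) = w) ∧
      e.conj (φ₀.prodMap φ') = φ ∧ e.conj (u₀.prodMap u') = u ∧
      Mw (W := ModuleCat.of ℚ W) Q i φ' u'

/-- If a finite group `G` is generated by elements that fix a smooth ample divisor of `X`
pointwise, the `l`-adic etale cohomology of `X` is the sum of that of `Y = X / G` and of the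
non-invariant part `W`, which is mw pure. -/
theorem result
    (K : Type) [Field K] (X Y : Scheme.{0}) (π : X ⟶ Y) (f : Y ⟶ Spec (.of K))
    [IsFinite π] [Surjective π] (d : ℕ) [SmoothOfRelativeDimension d (π ≫ f)]
    [GeometricallyIrreducible (π ≫ f)]
    (G : Type) [Group G] [Finite G] (ρ : G →* End X) (hπ : ∀ g, ρ g ≫ π = π)
    (hρ : ∀ g, ρ g ≫ π ≫ f = π ≫ f)
    (ho : ∀ (k : Type) [Field k] [IsAlgClosed k] (x y : Spec (.of k) ⟶ X),
      x ≫ π = y ≫ π → ∃ g, y = x ≫ ρ g)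
    (S : Set G) (hS : Subgroup.closure S = ⊤)
    (hD : ∀ s ∈ S, ∃ (N : ℕ) (ι : X ⟶ Proj (homogeneousSubmodule (Fin (N + 1)) K))
      (D : Scheme.{0}) (j : D ⟶ X), IsClosedImmersion ι ∧
      ι ≫ Proj.toSpecZero _ ≫ Spec.map (CommRingCat.ofHom (algebraMap K _)) = π ≫ f ∧
      IsClosedImmersion j ∧ Smooth (j ≫ π ≫ f) ∧ Nonempty D ∧ j ≫ ρ s = j ∧
      ∀ x : X, x ∈ Set.range j ↔ MvPolynomial.X 0 ∈ (ι x).asHomogeneousIdeal)
    (O Ω : Type) [CommRing O] [IsDomain O] [IsDiscreteValuationRing O]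
    [Finite (IsLocalRing.ResidueField O)] [Field Ω] [CharZero Ω] [IsAlgClosed Ω] [Algebra O Ω]
    [FaithfulSMul O Ω] [Algebra.IsAlgebraic O Ω] [Algebra K Ω]
    (l : ℕ) [Fact l.Prime] (hl : IsUnit (l : O)) (i : ℕ) (φ u : Ω ≃ₐ[K] Ω) (Q : ℕ) (hQ : 1 < Q)
    (hφ : Frob O Q φ) (hu : Frob O 1 u)
    (hr : ∃ (n : ℕ) (r : Ω) (o : O), r ^ l ^ n = algebraMap O Ω o ∧ u r ≠ r) :
    Splits Q i (fun g => act Ω (π ≫ f) l i (ρ g) (hρ g)) (gal f l i φ) (gal f l i u)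
      (gal (π ≫ f) l i φ) (gal (π ≫ f) l i u) := by
  obtain ⟨a1, a2, a3⟩ := Pool.Agent.MP_855f4c_ag.A.All.hFINR K X (π ≫ f) d G ρ hρ S hS hD O Ω l hl
    i φ u Q hQ hφ hu hr _ rfl
  obtain ⟨p, b1, b2, b3⟩ := Pool.Agent.MP_855f4c_ag.T.Finc.pull (Ω := Ω) π f ρ hπ hρ ho
    (Fact.out : l.Prime).ne_zero i
  let e := LinearEquiv.ofBijective _ (Pool.Agent.MP_855f4c_ag.T.Finc.split _
    (Pool.Agent.MP_855f4c_ag.T.Finr.act_id _ l i _ _ ρ.map_one)
    (fun g h => Pool.Agent.MP_855f4c_ag.T.Finr.act_comp _ l i _ _ _ _ _ _ (ρ.map_mul g h)) p b1 b2)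
  have h (σ : Ω ≃ₐ[K] Ω) (a) : e.conj ((gal f l i σ).prodMap ((gal (π ≫ f) l i σ).restrict a)) =
      gal (π ≫ f) l i σ := LinearMap.ext fun x => by
    obtain ⟨⟨y, w⟩, rfl⟩ := e.surjective x
    rw [LinearEquiv.conj_apply_apply, e.symm_apply_apply]
    exact (congrArg (· + gal (π ≫ f) l i σ w.1) (b3 σ y)).trans (map_add _ _ _).symm
  exact ⟨_, rfl, _, _, e, fun w => (congrArg (· + w.1) (map_zero p)).trans (zero_add _), h φ a1,
    h u a2, a3⟩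

end Pool.Agent.Results.MP_855f4c_ag.EtaleReflection
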